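import Pool.Agent.H761J.Nil6
import Pool.Agent.H761J.Ham4

/-!
# Listing sequences in groups of nilpotency class at most two

Let `G` be a finite group whose commutator subgroup is contained in its centre. Then for every
nonempty symmetric generating set `A` there is a listing sequence of elements of `A`.

Proof. Let `R` be a symmetric subset of `A`, `H = ⟨R⟩` and `W` the set of the ends of the
Hamiltonian paths of the Cayley graph of `H` which start at `1`. We show by induction that `W` is
not empty and generates `H`. Let `a ∈ A` be outside of `H`.

(1) Walks over cosets (`walk_exists`). There is a sequence of elements `w a` and `w a⁻¹`, `w ∈ W`,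
whose partial products represent every left coset of `H` in `⟨H, a⟩` exactly once. For `w ∈ W`
write `e = w⁻¹ a⁻¹ w a`, a central element. For one `w` the cosets in `⟨a, w⟩ H` are the cosets of
the elements `a ^ p e ^ j` with `p < m`, `j < n`, and a zigzag between the levels `p` and `p + 1`,
with `w a` going up and `w⁻¹ a⁻¹` going down, meets them all; for odd `m` the zigzag between any
two levels has only half the length, and the walk is closed up over the level `0` by one change
of the exponent of `w`. (`base_even`, `base_odd`.) Then the other elements `w` are added one by one: a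
walk for the product set `Γ H` is repeated in the translates `f ^ i Γ H`, `f = w⁻¹ a⁻¹ w a`, after
a change of the first block from `w₁ a` to `w⁻¹ a` (`st_step`).

(2) Running through every coset along a Hamiltonian path of `H` with the prescribed end gives
Hamiltonian paths of `⟨H, a⟩` with ends `t w`, where `t` is fixed and `w ∈ W` is arbitrary.

(3) The ends generate (`good`): if they were contained in a maximal subgroup `E`, one chooses
`R` maximal containing all elements of `A` in `E` such that `R` does not generate, and `a`
outside of `⟨R⟩`. If `⟨R⟩ ≤ E`, then `t a ∈ E` shows that `a ∈ E`. Otherwise all `w ∈ W` are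
outside of `E`, and `E` has index two, so all steps `w a`, `w a⁻¹` are in `E`, so is `t`, and `t w`
is not.
-/

namespace Pool.Agent.Results.MP_688fd0_co.ClassTwo

universe u

/-- `a_1, …, a_n ∈ A`, where `n = |G|`, have pairwise distinct partial products
`a_1, a_1 a_2, …, a_1 ⋯ a_n`. -/
def Listing {G : Type u} [Group G] (A : Set G) (a : Fin (Nat.card G) → G) : Prop :=
  (∀ i, a i ∈ A) ∧
  Function.Injective (fun k : Fin (Nat.card G) => ((List.ofFn a).take (k.val + 1)).prod)

theorem result {G : Type u} [Group G] [Finite G] (hG : commutator G ≤ Subgroup.center G)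
    (A : Set G) (hne : A.Nonempty) (hA : ∀ x ∈ A, x⁻¹ ∈ A) (hgen : Subgroup.closure A = ⊤) :
    ∃ a : Fin (Nat.card G) → G, Listing A a := by
  have hZ : ∀ g h z : G, (g⁻¹ * h⁻¹ * g * h) * z = z * (g⁻¹ * h⁻¹ * g * h) := by
    intro g h z
    have h1 : g⁻¹ * h⁻¹ * g * h ∈ commutator G := by
      have h2 := Subgroup.commutator_mem_commutator (Subgroup.mem_top g⁻¹)
        (Subgroup.mem_top h⁻¹)
      rw [commutatorElement_def, inv_inv, inv_inv] at h2
      exact h2
    exact (Subgroup.mem_center_iff.1 (hG h1) z).symm
  obtain ⟨w, l, hlA, hl, -⟩ := (Pool.Agent.H761J.Nil.good hZ _ A hA rfl).1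
  rw [hgen] at hl
  obtain ⟨x, hx⟩ := hne
  exact Pool.Agent.H761J.Ham.listing_of_cov hlA
    (hl.congr (fun g => ⟨fun _ => Set.mem_univ g, fun _ => Set.mem_univ g⟩)) hx

end Pool.Agent.Results.MP_688fd0_co.ClassTwo
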