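import Pool.Agent.Helper718_cayley.P
import Pool.Agent.R759.HCFinal

/-!
Problem MP_688fd0_co: closed listing sequences (Hamiltonian cycles in Cayley graphs) for all
symmetric generating sets containing somewhat more than half of a subgroup.
-/

namespace Pool.Agent.Results.MP_688fd0_co.DenseSubgroup

open Pool.Agent.H718C Pool.Agent.R759.HC

universe u

/-- `a_1, …, a_n ∈ A`, where `n = |G|`, have pairwise distinct partial products
`a_1, a_1 a_2, …, a_1 ⋯ a_n`, the last of which is `1`. -/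
def ClosedListing {G : Type u} [Group G] (A : Set G) (a : Fin (Nat.card G) → G) : Prop :=
  (∀ i, a i ∈ A) ∧
  Function.Injective (fun k : Fin (Nat.card G) => ((List.ofFn a).take (k.val + 1)).prod) ∧
  (List.ofFn a).prod = 1

/-- `H` is any subgroup of order at least twelve, and `K` is a natural number with `K ≥ |H|` or
`12 K + 16 |H| ≤ K |H|`. -/
theorem result {G : Type u} [Group G] [Finite G] (A : Set G) (hA : ∀ x ∈ A, x⁻¹ ∈ A)
    (hgen : Subgroup.closure A = ⊤) (H : Subgroup G) (h12 : 12 ≤ Nat.card H) (K : ℕ)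
    (hK : Nat.card H ≤ K ∨ 12 * K + 16 * Nat.card H ≤ K * Nat.card H)
    (hd : Nat.card H + K / 2 ≤ 2 * Set.ncard {x | x ∈ A ∧ x ∈ H ∧ x ≠ 1}) :
    ∃ a : Fin (Nat.card G) → G, ClosedListing A a := by
  obtain ⟨σ, h1, h2⟩ : ∃ σ : Equiv.Perm G, (∀ x, x⁻¹ * σ x ∈ A) ∧ ∀ x y, σ.SameCycle x y := by
    by_cases hHK : Nat.card H ≤ K
    · refine dense_three A hA hgen H h12 ?_
      have := Nat.div_le_div_right (c := 2) hHK
      omega
    · have hK2 := hK.resolve_left hHK
      refine dense_half A hA hgen H K ?_ (by omega) hK2 hd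
      by_contra h0
      have h1 : K = 0 := by omega
      rw [h1] at hK2
      omega
  exact listing_of_cyc (σ := σ) ⟨fun x hx => absurd (Set.mem_univ x) hx, fun x _ => Set.mem_univ _,
    fun x _ => h1 x, fun x _ y _ => h2 x y⟩

/-- Three quarters of a subgroup of order at least twelve. -/
theorem three_quarters {G : Type u} [Group G] [Finite G] (A : Set G) (hA : ∀ x ∈ A, x⁻¹ ∈ A)
    (hgen : Subgroup.closure A = ⊤) (H : Subgroup G) (h12 : 12 ≤ Nat.card H)
    (hd : 3 * Nat.card H ≤ 4 * Set.ncard {x | x ∈ A ∧ x ∈ H ∧ x ≠ 1}) :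
    ∃ a : Fin (Nat.card G) → G, ClosedListing A a :=
  result A hA hgen H h12 (Nat.card H) (Or.inl le_rfl) (by omega)

/-- All non-identity elements of a subgroup of order at least twelve. -/
theorem whole {G : Type u} [Group G] [Finite G] (A : Set G) (hA : ∀ x ∈ A, x⁻¹ ∈ A)
    (hgen : Subgroup.closure A = ⊤) (H : Subgroup G) (h12 : 12 ≤ Nat.card H)
    (hHA : ∀ h ∈ H, h ≠ 1 → h ∈ A) : ∃ a : Fin (Nat.card G) → G, ClosedListing A a := by
  refine three_quarters A hA hgen H h12 ?_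
  have h1 : {x | x ∈ A ∧ x ∈ H ∧ x ≠ 1} = (H : Set G) \ {1} := by
    ext x
    simp only [Set.mem_ofPred_eq, Set.mem_sdiff, SetLike.mem_coe, Set.mem_singleton_iff]
    exact ⟨fun h => ⟨h.2.1, h.2.2⟩, fun h => ⟨hHA x h.1 h.2, h.1, h.2⟩⟩
  have h2 : Set.ncard (H : Set G) = Nat.card H := rfl
  rw [h1, Set.ncard_sdiff_singleton_of_mem H.one_mem, h2]
  omega

/-- More than half of a subgroup of order at least thirty-six. -/
theorem half {G : Type u} [Group G] [Finite G] (A : Set G) (hA : ∀ x ∈ A, x⁻¹ ∈ A)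
    (hgen : Subgroup.closure A = ⊤) (H : Subgroup G) (h36 : 36 ≤ Nat.card H)
    (hd : Nat.card H + 12 ≤ 2 * Set.ncard {x | x ∈ A ∧ x ∈ H ∧ x ≠ 1}) :
    ∃ a : Fin (Nat.card G) → G, ClosedListing A a :=
  result A hA hgen H (by omega) 24 (Or.inr (by omega)) (by omega)

/-- More than half of a subgroup of order at least two hundred and four. -/
theorem half_large {G : Type u} [Group G] [Finite G] (A : Set G) (hA : ∀ x ∈ A, x⁻¹ ∈ A)
    (hgen : Subgroup.closure A = ⊤) (H : Subgroup G) (h204 : 204 ≤ Nat.card H)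
    (hd : Nat.card H + 8 ≤ 2 * Set.ncard {x | x ∈ A ∧ x ∈ H ∧ x ≠ 1}) :
    ∃ a : Fin (Nat.card G) → G, ClosedListing A a :=
  result A hA hgen H (by omega) 17 (Or.inr (by omega)) (by omega)

end Pool.Agent.Results.MP_688fd0_co.DenseSubgroup
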