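import Pool.Agent.H761J.Ham4

/-!
# Listing sequences in groups with an abelian (or Dedekind) subgroup of index two

Let `N` be a subgroup of index two of the finite group `G`, `A` a symmetric generating set and
`U = ⟨A ∩ N⟩`. If `U` is normal in `N`, all subgroups of `U` are normal in `U`, and all subgroups
between `M = ⟨g x g⁻¹ : x ∈ A ∩ N, g ∈ G⟩` and `N` are normal in `N`, then there is a listing
sequence of elements of `A`. This holds in particular for all generating sets `A` if all subgroups
of `N` are normal in `N`, for instance if `N` is abelian (`abelian` below): dihedral, dicyclic,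
semidihedral and all generalised dihedral groups, wreath products with the group of order two, and
their direct products with abelian groups.

Proof. (1) The ends of the Hamiltonian paths of the Cayley graph of `U` which start at `1`
generate `U` (`ends_generate`): for a maximal subgroup `E` of `U` there is such a path with its end
outside of `E`. (2) With `U' = f U f⁻¹`, `f ∈ A` outside of `N`, the cosets of `U` in `N` and of
`U'` in `N` form a staircase: one walks through a coset `x U`, goes up with `f`, through `y U' f`,
down with `f⁻¹`, and so on; by (1) the ends can be chosen such that one meets all the cosets of `U`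
in `M` and in `M f` exactly once. (3) From the end of one staircase one reaches the next
one with any element of `A` outside of `N`, and in this way all cosets of `M`, as Cayley digraphs
of groups all of whose subgroups are normal have Hamiltonian paths.
-/

namespace Pool.Agent.Results.MP_688fd0_co.IndexTwo

universe u

/-- `a_1, …, a_n ∈ A`, where `n = |G|`, have pairwise distinct partial products
`a_1, a_1 a_2, …, a_1 ⋯ a_n`. -/
def Listing {G : Type u} [Group G] (A : Set G) (a : Fin (Nat.card G) → G) : Prop :=
  (∀ i, a i ∈ A) ∧
  Function.Injective (fun k : Fin (Nat.card G) => ((List.ofFn a).take (k.val + 1)).prod)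

/-- `h k h⁻¹ ∈ K` for all `k ∈ K` and `h ∈ H`; for `K ≤ H`: `K` is a normal subgroup of `H` -/
def NormalIn {G : Type u} [Group G] (K H : Subgroup G) : Prop :=
  ∀ h ∈ H, ∀ k ∈ K, h * k * h⁻¹ ∈ K

theorem result {G : Type u} [Group G] [Finite G] (N : Subgroup G) (hN : N.index = 2)
    (A : Set G) (hA : ∀ x ∈ A, x⁻¹ ∈ A) (hgen : Subgroup.closure A = ⊤)
    (h1 : ∀ K : Subgroup G, K ≤ Subgroup.closure (A ∩ N) →
      NormalIn K (Subgroup.closure (A ∩ N)))
    (h2 : NormalIn (Subgroup.closure (A ∩ N)) N)
    (h3 : ∀ K : Subgroup G, (∀ x ∈ A, x ∈ N → ∀ g : G, g * x * g⁻¹ ∈ K) → K ≤ N →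
      NormalIn K N) :
    ∃ a : Fin (Nat.card G) → G, Listing A a := by
  obtain ⟨⟨l, hlA, hl⟩, ⟨x, hx⟩⟩ := Pool.Agent.H761J.Ham.main N hN A hA hgen
    (Subgroup.closure (A ∩ N)) rfl h1 h2 h3
  exact Pool.Agent.H761J.Ham.listing_of_cov hlA hl hx

/-- The case of a subgroup `N` of index two all of whose subgroups are normal in `N`. -/
theorem dedekind {G : Type u} [Group G] [Finite G] (N : Subgroup G) (hN : N.index = 2)
    (hD : ∀ K : Subgroup G, K ≤ N → NormalIn K N)
    (A : Set G) (hA : ∀ x ∈ A, x⁻¹ ∈ A) (hgen : Subgroup.closure A = ⊤) :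
    ∃ a : Fin (Nat.card G) → G, Listing A a := by
  have hU : Subgroup.closure (A ∩ N) ≤ N := by
    rw [Subgroup.closure_le]
    exact Set.inter_subset_right
  exact result N hN A hA hgen (fun K hK h hh k hk => hD K (hK.trans hU) h (hU hh) k hk)
    (hD _ hU) (fun K _ hK => hD K hK)

/-- The case of an abelian subgroup `N` of index two. -/
theorem abelian {G : Type u} [Group G] [Finite G] (N : Subgroup G) (hN : N.index = 2)
    (hab : ∀ x ∈ N, ∀ y ∈ N, x * y = y * x)
    (A : Set G) (hA : ∀ x ∈ A, x⁻¹ ∈ A) (hgen : Subgroup.closure A = ⊤) :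
    ∃ a : Fin (Nat.card G) → G, Listing A a := by
  refine dedekind N hN ?_ A hA hgen
  intro K hK h hh k hk
  rw [hab h hh k (hK hk), mul_inv_cancel_right]
  exact hk

end Pool.Agent.Results.MP_688fd0_co.IndexTwo
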