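import Pool.Agent.Helper718_cayley.K
import Pool.Agent.Helper718_cayley.M
import Pool.Agent.R759.HCFinal

/-!
Problem MP_688fd0_co: closed listing sequences (Hamiltonian cycles in Cayley graphs) for all
symmetric generating sets `A` such that `Cay(G, A)` contains the squares of vertex-disjoint cycles
covering `G`, each of which is a union of left cosets of a fixed subgroup of order at least forty.
-/

namespace Pool.Agent.Results.MP_688fd0_co.SquareCycle

open Pool.Agent.H718C Pool.Agent.R759.HC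

universe u

/-- `a_1, …, a_n ∈ A`, where `n = |G|`, have pairwise distinct partial products
`a_1, a_1 a_2, …, a_1 ⋯ a_n`, the last of which is `1`. -/
def ClosedListing {G : Type u} [Group G] (A : Set G) (a : Fin (Nat.card G) → G) : Prop :=
  (∀ i, a i ∈ A) ∧
  Function.Injective (fun k : Fin (Nat.card G) => ((List.ofFn a).take (k.val + 1)).prod) ∧
  (List.ofFn a).prod = 1

/-- `π` is a permutation of `G` such that `x` is adjacent to `π x` and to `π (π x)` in
`Cay(G, A)`, and whose cycles are unions of left cosets of `K`. -/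
theorem result {G : Type u} [Group G] [Finite G] (A : Set G) (hA : ∀ x ∈ A, x⁻¹ ∈ A)
    (hgen : Subgroup.closure A = ⊤) (K : Subgroup G) (h40 : 40 ≤ Nat.card K) (π : Equiv.Perm G)
    (hK : ∀ x y, x⁻¹ * y ∈ K → π.SameCycle x y) (h1 : ∀ x, x⁻¹ * π x ∈ A)
    (h2 : ∀ x, x⁻¹ * π (π x) ∈ A) : ∃ a : Fin (Nat.card G) → G, ClosedListing A a := by
  obtain ⟨σ, h1, h2⟩ := square_cluster A hA hgen K h40 π hK h1 h2
  exact listing_of_cyc (σ := σ) ⟨fun x hx => absurd (Set.mem_univ x) hx, fun x _ => Set.mem_univ _,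
    fun x _ => h1 x, fun x _ y _ => h2 x y⟩

/-- The case in which all cycles are left cosets of a subgroup `H` with the same cyclic
permutation `ρ` of `H`: here `Cay(H, A ∩ H)` contains the square of a Hamiltonian cycle. -/
theorem subgroup {G : Type u} [Group G] [Finite G] (A : Set G) (hA : ∀ x ∈ A, x⁻¹ ∈ A)
    (hgen : Subgroup.closure A = ⊤) (H : Subgroup G) (h40 : 40 ≤ Nat.card H) (ρ : Equiv.Perm H)
    (hcyc : ∀ x y, ρ.SameCycle x y) (h1 : ∀ x : H, ((x⁻¹ * ρ x : H) : G) ∈ A)
    (h2 : ∀ x : H, ((x⁻¹ * ρ (ρ x) : H) : G) ∈ A) :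
    ∃ a : Fin (Nat.card G) → G, ClosedListing A a := by
  obtain ⟨σ, h1, h2⟩ := square_main A hA hgen H h40 ρ hcyc h1 h2
  exact listing_of_cyc (σ := σ) ⟨fun x hx => absurd (Set.mem_univ x) hx, fun x _ => Set.mem_univ _,
    fun x _ => h1 x, fun x _ y _ => h2 x y⟩

/-- Any symmetric generating set containing `a` and `a²` for an element `a` of order at least
forty. -/
theorem element {G : Type u} [Group G] [Finite G] (A : Set G) (hA : ∀ x ∈ A, x⁻¹ ∈ A)
    (hgen : Subgroup.closure A = ⊤) (a : G) (h40 : 40 ≤ orderOf a) (h1 : a ∈ A)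
    (h2 : a * a ∈ A) : ∃ a : Fin (Nat.card G) → G, ClosedListing A a := by
  refine result A hA hgen (Subgroup.zpowers a) (by rw [Nat.card_zpowers]; exact h40)
    (Equiv.mulRight a) ?_ ?_ ?_
  · intro x y hxy
    obtain ⟨k, hk⟩ := Subgroup.mem_zpowers_iff.1 hxy
    refine ⟨k, ?_⟩
    rw [Equiv.zpow_mulRight, Equiv.coe_mulRight]
    change x * a ^ k = y
    rw [hk, mul_inv_cancel_left]
  · intro x
    simpa using h1
  · intro x
    simpa [mul_assoc] using h2

end Pool.Agent.Results.MP_688fd0_co.SquareCycle
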